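import Pool.Agent.Lib.NLV.Acs

/-!
# NLV / Tis: the infinite torsion group, from unbounded dimensions (NLB/Tfi `torsion_two`, changed hypothesis)
-/

set_option autoImplicit false

namespace NLV

open NLB NLT NLU Module

theorem torsion_sol (p : ℕ) [Fact p.Prime] (q N e : ℕ) (he : 0 < e) (ℓ : List ℕ) (hp : p ∈ ℓ) (hℓ : ∀ r : ℕ, r.Prime → r ∣ e → r ∈ ℓ)
    (I V : Submodule (ZMod p) (R p)) (hI : TwoSided p I)
    (hfin : ∀ n, FiniteDimensional (ZMod p) (R p ⧸ (Jd p V ⊔ Iw p I n)))
    (hw : ∀ l : List Bool, l.length ≤ N → u p (pw l) ^ q - 1 ∈ V) (ht : ∀ g : F2, ∃ j : ℕ, u p g ^ (e * p ^ j) - 1 ∈ V)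
    (hb : ∀ C : ℕ, ∃ n : ℕ, C < bI p I V n) (hsol : ∃ d, ∀ g ∈ derivedSeries F2 d, u p g - 1 ∈ I) :
    ∃ (G : Type) (_ : Group G) (S : Finset G), Infinite G ∧ PiGroup ℓ G ∧ S.card ≤ 2 ∧ Subgroup.closure (S : Set G) = ⊤ ∧
      Cond N q S ∧ ∀ x : G, x ≠ 1 → ∃ (Q : Type) (_ : Group Q) (f : G →* Q), Finite Q ∧ Group.IsSolvable Q ∧ f x ≠ 1 := by
  classical
  choose G hG ρ hfG hsur hker hker2 hcard using fun n => act_homs p I V hI n (hfin n)
  obtain ⟨d, hd⟩ := hsol
  have hsolG : ∀ n, Group.IsSolvable (G n) := fun n =>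
    sol_of (G n) (ρ n) (hsur n) (d + n) fun g hg => hker2 n g (Iw_anti p I hI (Nat.le_succ n) (der_mem p I hI d hd n g hg))
  let Φ : F2 →* (∀ n, G n) := MonoidHom.pi ρ
  let ψ : F2 →* Φ.range := Φ.rangeRestrict
  have hψ : Function.Surjective ψ := Φ.rangeRestrict_surjective
  let pj : ∀ n, Φ.range →* G n := fun n => (Pi.evalMonoidHom G n).comp Φ.range.subtype
  have hpj : ∀ n g, pj n (ψ g) = ρ n g := fun _ _ => rfl
  have hext : ∀ x y : Φ.range, (∀ n, pj n x = pj n y) → x = y := fun x y h => Subtype.ext (funext fun n => h n)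
  have hone : ∀ g : F2, u p g - 1 ∈ V → ψ g = 1 := by
    intro g hg
    refine hext _ _ fun n => ?_
    rw [hpj, hker n g hg, map_one]
  refine ⟨Φ.range, inferInstance, {ψ (FreeGroup.of false), ψ (FreeGroup.of true)}, ?_, ?_, Finset.card_le_two, ?_, ?_, ?_⟩
  · by_contra hK
    rw [not_infinite_iff_finite] at hK
    obtain ⟨n, hn⟩ := hb (Nat.card Φ.range)
    have h1 : Function.Surjective (pj n) := by
      intro y
      obtain ⟨g, rfl⟩ := hsur n y
      exact ⟨ψ g, hpj _ _⟩
    have h2 := Nat.card_le_card_of_surjective _ h1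
    have h3 := hcard n
    omega
  · intro x
    obtain ⟨g, rfl⟩ := hψ x
    obtain ⟨j, hj⟩ := ht g
    have hp0 : 0 < p := (Fact.out : p.Prime).pos
    refine ⟨e * p ^ j, Nat.mul_pos he (pow_pos hp0 j), ?_, fun r hr hrd => ?_⟩
    · rw [← map_pow]
      exact hone _ (by rw [u_pow]; exact hj)
    · rcases (Nat.Prime.dvd_mul hr).1 hrd with h | h
      · exact hℓ r hr h
      · rw [(Nat.prime_dvd_prime_iff_eq hr (Fact.out : p.Prime)).1 (hr.dvd_of_dvd_pow h)]
        exact hp
  · have e1 : (({ψ (FreeGroup.of false), ψ (FreeGroup.of true)} : Finset Φ.range) : Set Φ.range)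
        = ψ '' (Set.range (FreeGroup.of : Bool → F2)) := by
      ext x
      simp only [Finset.coe_insert, Finset.coe_singleton, Set.mem_insert_iff, Set.mem_singleton_iff, Set.mem_image,
        Set.mem_range]
      constructor
      · rintro (h | h)
        · exact ⟨_, ⟨false, rfl⟩, h.symm⟩
        · exact ⟨_, ⟨true, rfl⟩, h.symm⟩
      · rintro ⟨_, ⟨b, rfl⟩, h⟩
        cases b
        · exact Or.inl h.symm
        · exact Or.inr h.symm
    rw [e1, ← MonoidHom.map_closure, FreeGroup.closure_range_of, Subgroup.map_top_of_surjective ψ hψ]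
  · intro l hl hS
    have key : ∀ l : List Φ.range,
        (∀ x ∈ l, x ∈ ({ψ (FreeGroup.of false), ψ (FreeGroup.of true)} : Finset Φ.range) ∨ x = 1) →
        ∃ w : List Bool, w.length ≤ l.length ∧ l.prod = ψ (pw w) := by
      intro l
      induction l with
      | nil => intro _; exact ⟨[], le_rfl, by simp [pw]⟩
      | cons x l ih =>
        intro h
        obtain ⟨w, hw1, hw2⟩ := ih fun y hy => h y (List.mem_cons_of_mem _ hy)
        have hcons : ∀ b : Bool, x = ψ (FreeGroup.of b) →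
            ∃ w : List Bool, w.length ≤ (x :: l).length ∧ (x :: l).prod = ψ (pw w) := by
          intro b hb
          refine ⟨b :: w, by simpa using hw1, ?_⟩
          rw [List.prod_cons, hw2, hb, ← map_mul]
          simp [pw]
        rcases h x List.mem_cons_self with hx | hx
        · rw [Finset.mem_insert, Finset.mem_singleton] at hx
          rcases hx with hx | hx
          · exact hcons _ hx
          · exact hcons _ hx
        · exact ⟨w, hw1.trans (by simp), by rw [List.prod_cons, hx, one_mul, hw2]⟩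
    obtain ⟨w, hw1, hw2⟩ := key l hS
    rw [hw2, ← map_pow]
    exact hone _ (by rw [u_pow]; exact hw w (hw1.trans hl.le))
  · intro x hx
    have h1 : ∃ n, pj n x ≠ 1 := by
      by_contra hcon
      push Not at hcon
      exact hx (hext _ _ fun n => by rw [hcon n, map_one])
    obtain ⟨n, hn⟩ := h1
    exact ⟨G n, hG n, pj n, hfG n, hsolG n, hn⟩

end NLV
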